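import Pool.Agent.Work.MP_91103f_lv.Interface

namespace Pool.TriLev.helper33

open Pool.Agent.Work.MP_91103f_co

open Classical

section

variable {V : Type} {G : SimpleGraph V} {r : V}

theorem chain_append (L L' : List V) : ∀ (x : V), List.IsChain G.Adj (x :: L) →
    List.IsChain G.Adj (L.getLastD x :: L') → List.IsChain G.Adj (x :: (L ++ L')) := by
  induction L with
  | nil =>
    intro x _ h
    simpa using h
  | cons a L ih =>
    intro x h h'
    rw [List.isChain_cons_cons] at h
    rw [List.cons_append, List.isChain_cons_cons]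
    rw [List.getLastD_cons] at h'
    exact ⟨h.1, ih a h.2 h'⟩

theorem getLastD_append (L L' : List V) : ∀ (x : V),
    (L ++ L').getLastD x = L'.getLastD (L.getLastD x) := by
  induction L with
  | nil => intro x; rfl
  | cons a L ih =>
    intro x
    rw [List.cons_append, List.getLastD_cons, List.getLastD_cons]
    exact ih a

theorem finite_BRS (hfin : ∀ x, (G.neighborSet x).Finite) (x y : V) (n : ℕ) :
    (BRS G r x y n).Finite :=
  (finite_PL hfin n x).subset fun _ h => h.1

theorem BRS_append {x y w : V} {n n' : ℕ} (h1 : G.dist r x ≤ G.dist r y)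
    (h2 : G.dist r y ≤ G.dist r w) {L L' : List V} (hL : L ∈ BRS G r x y n)
    (hL' : L' ∈ BRS G r y w n') : L ++ L' ∈ BRS G r x w (n + n') := by
  obtain ⟨⟨c1, c2, c3⟩, c4, c5⟩ := hL
  obtain ⟨⟨d1, d2, d3⟩, d4, d5⟩ := hL'
  refine ⟨⟨chain_append L L' x c1 (by rw [c4]; exact d1), ?_, by simp [c3, d3]⟩, ?_, ?_⟩
  · rw [List.nodup_cons] at c2 d2 ⊢
    refine ⟨?_, ?_⟩
    · rw [List.mem_append]
      rintro (h | h)
      · exact c2.1 h
      · have := (d5 x h).1
        omega
    · rw [List.nodup_append]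
      refine ⟨c2.2, d2.2, ?_⟩
      rintro a ha b hb rfl
      have h3 := (c5 a ha).2
      have h4 := (d5 a hb).1
      omega
  · rw [getLastD_append, c4, d4]
  · intro p hp
    rw [List.mem_append] at hp
    rcases hp with hp | hp
    · have := c5 p hp
      omega
    · have := d5 p hp
      omega

end

theorem stmt_CONC : Stmt_CONC := by
  intro V G r hfin x y w n n' h1 h2
  rw [← Set.ncard_prod]
  refine Set.ncard_le_ncard_of_injOn (fun p : List V × List V => p.1 ++ p.2) ?_ ?_
    (finite_BRS hfin _ _ _)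
  · rintro ⟨L, L'⟩ ⟨hL, hL'⟩
    exact BRS_append h1 h2 hL hL'
  · rintro ⟨L, L'⟩ ⟨hL, hL'⟩ ⟨K, K'⟩ ⟨hK, hK'⟩ h
    have e1 : L.length = K.length := by rw [hL.1.2.2, hK.1.2.2]
    obtain ⟨h3, h4⟩ := List.append_inj h e1
    simp only at h3 h4
    rw [h3, h4]

end Pool.TriLev.helper33
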