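import Pool.Agent.Work.MP_91103f_lv.Interface

namespace Pool.TriLev.helper33

open Pool.Agent.Work.MP_91103f_co

open Classical

section

variable {V : Type} {G : SimpleGraph V} {r : V}

theorem ne_root_of_lev (hc : G.Connected) {x0 x : V} (hx0 : x0 ≠ r)
    (h : G.dist r x0 ≤ G.dist r x) : x ≠ r := by
  rintro rfl
  have h1 : G.dist x x = 0 := SimpleGraph.dist_self
  have h2 : G.dist x x0 = 0 := by omega
  exact hx0 (hc.dist_eq_zero_iff.1 h2).symm

theorem lev_Phi (hPhi : Stmt_PHI) (hL : LevStr G r) (k : ℕ) : ∀ x, x ≠ r →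
    G.dist r ((Phi G r)^[k] x) = G.dist r x + 2 * k := by
  induction k with
  | zero => intro x _; simp
  | succ k ih =>
    intro x hx
    obtain ⟨c, c', -, h1, -, h2, -⟩ := (hPhi hL).1 x hx
    have h3 : G.dist r (Phi G r x) = G.dist r x + 2 := by
      have := h1.2
      have := h2.2
      omega
    rw [Function.iterate_succ_apply, ih _ (ne_root_of_lev hL.conn hx (by omega)), h3]
    ring

end

theorem stmt_COUNT (hC : Stmt_CONC) (hU : Stmt_UPW) (hPhi : Stmt_PHI) : Stmt_COUNT := by
  intro V G r hL H K l x0 hH hx0 hgood i b x hrt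
  induction hrt with
  | zero =>
    refine ⟨le_rfl, by simp, ?_⟩
    have := (hU (r := r) hL.fin x0 x0 0 rfl).1
    simpa using this
  | good i x b _ hg ih =>
    obtain ⟨h1, h2, h3⟩ := ih
    have hx : x ≠ r := ne_root_of_lev hL.conn hx0 (by omega)
    have h4 := hgood x hx hg
    have h5 : G.dist r ((Phi G r)^[H / 2] x) = G.dist r x + H := by
      rw [lev_Phi hPhi hL _ x hx, Nat.mul_div_cancel' hH.two_dvd]
    refine ⟨by omega, ?_, ?_⟩
    · rw [h5, h2]
      ring
    · have h6 := hC (G := G) (r := r) hL.fin x0 x ((Phi G r)^[H / 2] x)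
        ((i - b) * l + b * H) l (by omega) (by omega)
      have e1 : (i + 1 - b) * l + b * H = (i - b) * l + b * H + l := by
        rw [show i + 1 - b = (i - b) + 1 by omega]
        ring
      rw [e1, show i + 1 - b = (i - b) + 1 by omega, pow_succ]
      exact (Nat.mul_le_mul h3 h4).trans h6
  | bad i x b y _ hup ih =>
    obtain ⟨h1, h2, h3⟩ := ih
    obtain ⟨h4, h5⟩ := hU hL.fin x y H hup
    refine ⟨by omega, ?_, ?_⟩
    · rw [h5, h2]
      ring
    · have h6 := hC (G := G) (r := r) hL.fin x0 x y ((i - b) * l + b * H) H (by omega) (by omega)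
      have e1 : (i + 1 - (b + 1)) * l + (b + 1) * H = (i - b) * l + b * H + H := by
        rw [show i + 1 - (b + 1) = i - b by omega]
        ring
      rw [e1, show i + 1 - (b + 1) = i - b by omega]
      calc K ^ (i - b) ≤ K ^ (i - b) * (BRS G r x y H).ncard := Nat.le_mul_of_pos_right _ h4
        _ ≤ (BRS G r x0 x ((i - b) * l + b * H)).ncard * (BRS G r x y H).ncard :=
          Nat.mul_le_mul_right _ h3
        _ ≤ _ := h6

end Pool.TriLev.helper33
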