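import Pool.Agent.Work.MP_91103f_lv_helper33.LH

namespace Pool.TriLev.helper33

open Pool.Agent.Work.MP_91103f_co

open Classical

section

variable {V : Type} {G : SimpleGraph V} {F : Set (Finset V)}

theorem zp_shift (v a b : V) (k : ℕ) :
    zp F v (z F v a b 1) (z F v a b 2) k = zp F v a b (k + 1) := by
  induction k with
  | zero => rfl
  | succ k ih =>
    change ((zp F v (z F v a b 1) (z F v a b 2) k).2, nx F v _ _) = _
    rw [ih]
    rfl

theorem z_shift1 (v a b : V) (k : ℕ) :
    z F v (z F v a b 1) (z F v a b 2) k = z F v a b (k + 1) := by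
  change (zp F v (z F v a b 1) (z F v a b 2) k).1 = (zp F v a b (k + 1)).1
  rw [zp_shift]

theorem exists_parent (hc : G.Connected) (r x : V) (hx : x ≠ r) : ∃ p, Ch G r p x := by
  obtain ⟨p, hp⟩ := hc.exists_walk_length_eq_dist x r
  rw [SimpleGraph.dist_comm] at hp
  cases p with
  | nil => exact absurd rfl hx
  | @cons _ y _ hadj q =>
    rw [SimpleGraph.Walk.length_cons] at hp
    have h1 : G.dist y r ≤ q.length := SimpleGraph.dist_le q
    have h2 : G.dist r x ≤ G.dist r y + G.dist y x := hc.dist_triangle
    have h3 : G.dist y x = 1 := SimpleGraph.dist_eq_one_iff_adj.2 hadj.symm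
    have h4 : G.dist y r = G.dist r y := SimpleGraph.dist_comm
    exact ⟨y, hadj.symm, by omega⟩

end

theorem stmt_LINK (hLV : Stmt_LV) (hLH : Stmt_LH) : Stmt_LINK := by
  intro V G F hT r x hx
  have hc := hT.conn
  have hd6 := (hT.deg x).2
  -- a parent followed by a non-parent
  obtain ⟨p, q, hpq, hp, hq⟩ : ∃ p q, T3 F x p q ∧ Ch G r p x ∧ ¬ Ch G r q x := by
    obtain ⟨p, hp⟩ := exists_parent hc r x hx
    obtain ⟨q, -, -, hq, -⟩ := hT.exists_two hp.1.symm
    by_cases hqc : Ch G r q x
    · obtain ⟨hper, hinj, hsurj⟩ := hT.z_cycle hq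
      refine ⟨q, z F x p q 2, hT.z_face hq 1, hqc, ?_⟩
      intro h2
      have hne : p ≠ z F x p q 2 := (hT.z_ne2 hq 0).symm
      have h3 : T3 F x (z F x p q 2) p := (hLV hT r x p _ hp h2 hne).swap'
      rcases hT.z_nb hq 1 h3 with h4 | h4
      · have := hinj 0 1 (by omega) (by omega) h4
        omega
      · have := hinj 0 3 (by omega) (by omega) h4
        omega
    · exact ⟨p, q, hq, hp, hqc⟩
  obtain ⟨hper, hinj, hsurj⟩ := hT.z_cycle hpq
  set d := (G.neighborSet x).ncard with hd
  have hz0 : z F x p q 0 = p := rfl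
  have hz1 : z F x p q 1 = q := rfl
  have hzd : z F x p q d = p := by
    have := hper 0
    rw [zero_add] at this
    exact this
  have hzd1 : z F x p q (d + 1) = q := by
    have := hper 1
    rw [add_comm]
    exact this
  -- no parents in the middle
  have hnp : ∀ k, 1 ≤ k → k ≤ d - 2 → ¬ Ch G r (z F x p q k) x := by
    intro k hk1 hk2 hk
    rcases Nat.eq_or_lt_of_le hk1 with rfl | hk1'
    · exact hq hk
    · have hne : p ≠ z F x p q k := by
        intro h
        have := hinj 0 k (by omega) (by omega) h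
        omega
      have h3 : T3 F x (z F x p q (d - 1 + 1)) (z F x p q k) := by
        rw [show d - 1 + 1 = d by omega, hzd]
        exact hLV hT r x p _ hp hk hne
      rcases hT.z_nb hpq (d - 1) h3 with h4 | h4
      · have := hinj k (d - 1) (by omega) (by omega) h4
        omega
      · rw [show d - 1 + 2 = d + 1 by omega, hzd1, ← hz1] at h4
        have := hinj k 1 (by omega) (by omega) h4
        omega
  have hadj : ∀ k, G.Adj x (z F x p q k) := hT.z_adj hpq
  -- levels of neighbours which are not parents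
  have hlow : ∀ k, ¬ Ch G r (z F x p q k) x → G.dist r x ≤ G.dist r (z F x p q k) := by
    intro k hk
    have h1 := lev_adj hc r (hadj k)
    by_contra h2
    exact hk ⟨(hadj k).symm, by omega⟩
  -- vertices next to parents
  have hsame : ∀ j k, G.Adj (z F x p q j) (z F x p q k) → Ch G r (z F x p q j) x →
      ¬ Ch G r (z F x p q k) x → G.dist r (z F x p q k) = G.dist r x := by
    intro j k hjk hj hk
    have h1 := lev_adj hc r hjk.symm
    have h2 := hlow k hk
    have h3 := hj.2
    omega
  -- children
  have hchild : ∀ k, 2 ≤ k → k ≤ d - 2 → ¬ Ch G r (z F x p q (k + 1)) x →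
      Ch G r x (z F x p q k) := by
    intro k hk1 hk2 hk3
    have h1 := hlow k (hnp k (by omega) hk2)
    have h2 := lev_adj hc r (hadj k).symm
    rcases Nat.eq_or_lt_of_le h1 with h3 | h3
    · exfalso
      obtain ⟨w, hw1, -, hw3⟩ := hLH hT r x _ (hadj k) h3
      rw [show k = k - 1 + 1 by omega] at hw3
      rcases hT.z_nb hpq (k - 1) hw3 with h4 | h4
      · rw [h4] at hw1
        exact hnp (k - 1) (by omega) (by omega) hw1
      · rw [show k - 1 + 2 = k + 1 by omega] at h4
        rw [h4] at hw1
        exact hk3 hw1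
    · exact ⟨hadj k, by omega⟩
  have hface : ∀ k, G.Adj (z F x p q k) (z F x p q (k + 1)) := fun k =>
    hT.adj (hT.z_face hpq k).swap.swap'
  have h12 : T3 F x (z F x p q 1) (z F x p q 2) := hT.z_face hpq 1
  have hs1 : G.dist r (z F x p q 1) = G.dist r x := hsame 0 1 (hface 0) hp hq
  by_cases hlast : Ch G r (z F x p q (d - 1)) x
  · refine ⟨z F x p q 1, z F x p q 2, d - 4, h12, by omega, Or.inr (by omega), hs1, ?_, ?_, ?_⟩
    · intro i hi1 hi2
      rw [z_shift1]
      exact hchild (i + 1) (by omega) (by omega) (hnp _ (by omega) (by omega))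
    · rw [z_shift1, show d - 4 + 1 + 1 = d - 2 by omega]
      have h5 := (hface (d - 2)).symm
      rw [show d - 2 + 1 = d - 1 by omega] at h5
      exact hsame (d - 1) (d - 2) h5 hlast (hnp _ (by omega) (by omega))
    · intro i hi1 hi2
      rw [z_shift1]
      have h6 : i + 1 = d - 1 ∨ i + 1 = d := by omega
      rcases h6 with h6 | h6
      · rw [h6]
        exact hlast
      · rw [h6, hzd]
        exact hp
  · refine ⟨z F x p q 1, z F x p q 2, d - 3, h12, by omega, Or.inl (by omega), hs1, ?_, ?_, ?_⟩
    · intro i hi1 hi2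
      rw [z_shift1]
      refine hchild (i + 1) (by omega) (by omega) ?_
      rcases Nat.lt_or_ge (i + 1 + 1) (d - 1) with h6 | h6
      · exact hnp _ (by omega) (by omega)
      · rw [show i + 1 + 1 = d - 1 by omega]
        exact hlast
    · rw [z_shift1, show d - 3 + 1 + 1 = d - 1 by omega]
      have h5 := (hface (d - 1)).symm
      rw [show d - 1 + 1 = d by omega] at h5
      exact hsame d (d - 1) h5 (by rw [hzd]; exact hp) hlast
    · intro i hi1 hi2
      rw [z_shift1, show i + 1 = d by omega, hzd]
      exact hp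

end Pool.TriLev.helper33
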