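import Pool.Agent.Work.MP_91103f_lv_helper33.LH
import Pool.Agent.Work.MP_91103f_lv_helper19.FAN
import Pool.Agent.Work.MP_91103f_lv_helper53.LV
import Pool.Agent.Work.MP_91103f_lv_helper54.DESC
import Pool.Agent.Work.MP_91103f_lv_helper81.POLY
import Pool.Agent.Work.MP_91103f_lv_helper81.SIDE

/-!
# Assembly of LV and LH (MP_91103f_co)
-/

namespace Pool.TriLev.helper33

open Pool.Agent.Work.MP_91103f_co

theorem all_SIDE : Stmt_SIDE := helper81.stmt_SIDE helper19.stmt_FAN

theorem all_LV : Stmt_LV :=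
  helper53.stmt_LV helper54.stmt_DESC helper81.stmt_POLY all_SIDE helper19.stmt_FAN

theorem all_LH : Stmt_LH :=
  stmt_LH helper54.stmt_DESC helper81.stmt_POLY all_SIDE helper19.stmt_FAN

end Pool.TriLev.helper33
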