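import Pool.Agent.Work.MP_91103f_lv_helper33.FIN2
import Pool.Agent.Work.MP_91103f_lv_helper33.COUNT
import Pool.Agent.Work.MP_91103f_lv_helper33.LVLH
import Pool.Agent.Work.MP_91103f_lv_helper33.LINK
import Pool.Agent.Work.MP_91103f_lv_helper33.CONC
import Pool.Agent.Work.MP_91103f_lv_helper14.PHI
import Pool.Agent.Work.MP_91103f_lv_helper14.POT
import Pool.Agent.Work.MP_91103f_lv_helper17.NCH
import Pool.Agent.Work.MP_91103f_lv_helper17.UPW
import Pool.Agent.Work.MP_91103f_lv_helper17.VM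
import Pool.Agent.Work.MP_91103f_lv_helper19.HWC
import Pool.Agent.Work.MP_91103f_lv_helper19.HWH
import Pool.Agent.Work.MP_91103f_lv_helper19.LS
import Pool.Agent.Work.MP_91103f_lv_helper19.ROUTE
import Pool.Agent.Work.MP_91103f_lv_helper31.CYC
import Pool.Agent.Work.MP_91103f_lv_helper31.NEW
import Pool.Agent.Work.MP_91103f_lv_helper4.VB
import Pool.Agent.Work.MP_91103f_lv_helper45.TRI
import Pool.Agent.Work.MP_91103f_lv_helper51.HW
import Pool.Agent.Work.MP_91103f_lv_helper53.UPF

/-!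
# Assembly (MP_91103f_co)
-/

namespace Pool.TriLev.helper33

open Pool.Agent.Work.MP_91103f_co

theorem all_LINK : Stmt_LINK := stmt_LINK all_LV all_LH

theorem all_UPF : Stmt_UPF := helper53.stmt_UPF all_LV all_LH all_LINK

theorem all_LS : Stmt_LS :=
  helper19.stmt_LS all_LV all_LH all_LINK helper17.stmt_NCH all_UPF
    (helper31.stmt_CYC all_LINK helper17.stmt_NCH all_UPF)

theorem all_ROUTE : Stmt_ROUTE :=
  helper19.stmt_ROUTE helper14.stmt_PHI (helper31.stmt_NEW helper14.stmt_PHI) helper14.stmt_POT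

theorem main : type_of% (main3 all_LS (helper45.stmt_TRI helper14.stmt_PHI) all_ROUTE stmt_CONC
    helper17.stmt_UPW (helper17.stmt_VM stmt_CONC)
    (stmt_COUNT stmt_CONC helper17.stmt_UPW helper14.stmt_PHI)
    (helper4.stmt_VB (helper51.stmt_HW helper19.stmt_HWH helper19.stmt_HWC))) :=
  main3 all_LS (helper45.stmt_TRI helper14.stmt_PHI) all_ROUTE stmt_CONC
    helper17.stmt_UPW (helper17.stmt_VM stmt_CONC)
    (stmt_COUNT stmt_CONC helper17.stmt_UPW helper14.stmt_PHI)
    (helper4.stmt_VB (helper51.stmt_HW helper19.stmt_HWH helper19.stmt_HWC))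

theorem le_of_all (L6 L : ENNReal) (hle : ∀ ε : ℝ, 0 < ε → L6 ≤ ENNReal.ofReal (1 + ε) * L) :
    L6 ≤ L := by
  have ht : Filter.Tendsto (fun ε : ℝ => ENNReal.ofReal (1 + ε) * L) (nhdsWithin 0 (Set.Ioi 0))
      (nhds (ENNReal.ofReal (1 + 0) * L)) := by
    apply ENNReal.Tendsto.mul_const
    · apply (ENNReal.continuous_ofReal.tendsto _).comp
      exact ((continuous_const.add continuous_id).tendsto (0 : ℝ)).mono_left nhdsWithin_le_nhds
    · left
      simp
  rw [add_zero, ENNReal.ofReal_one, one_mul] at ht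
  refine ge_of_tendsto ht ?_
  filter_upwards [self_mem_nhdsWithin] with ε hε
  exact hle ε hε

end Pool.TriLev.helper33
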