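import Pool.Agent.Work.MP_91103f_lv.Interface

namespace Pool.TriLev.helper33

open Pool.Agent.Work.MP_91103f_co Filter

open Classical

section up

variable {V : Type} {G : SimpleGraph V} {r : V}

theorem up_dist (hc : G.Connected) {y : V} : ∀ {j : ℕ} {x : V}, Up G r j x y →
    G.dist r y = G.dist r x + j ∧ G.dist x y = j := by
  intro j
  induction j with
  | zero =>
    intro x h
    cases h
    simp
  | succ j ih =>
    rintro x ⟨c, hc1, hc2⟩
    obtain ⟨h1, h2⟩ := ih hc2
    have h3 := hc1.2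
    have h4 : G.dist x c = 1 := SimpleGraph.dist_eq_one_iff_adj.2 hc1.1
    have h5 : G.dist x y ≤ G.dist x c + G.dist c y := hc.dist_triangle
    have h6 : G.dist r y ≤ G.dist r x + G.dist x y := hc.dist_triangle
    omega

theorem up_snoc {j : ℕ} : ∀ {x y c : V}, Up G r j x y → Ch G r y c → Up G r (j + 1) x c := by
  induction j with
  | zero =>
    intro x y c h h'
    cases h
    exact ⟨c, h', rfl⟩
  | succ j ih =>
    rintro x y c ⟨d, hd, h⟩ h'
    exact ⟨d, hd, ih h h'⟩

theorem up_root (hc : G.Connected) (n : ℕ) : ∀ x : V, G.dist r x = n → Up G r n r x := by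
  induction n with
  | zero =>
    intro x hx
    exact (hc.dist_eq_zero_iff.1 hx)
  | succ n ih =>
    intro x hx
    obtain ⟨p, hp⟩ := hc.exists_walk_length_eq_dist x r
    rw [SimpleGraph.dist_comm, hx] at hp
    cases p with
    | nil => simp at hp
    | @cons _ y _ hadj q =>
      rw [SimpleGraph.Walk.length_cons] at hp
      have h1 : G.dist y r ≤ n := by
        have := SimpleGraph.dist_le q
        omega
      have h2 : G.dist r x ≤ G.dist r y + G.dist y x := hc.dist_triangle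
      have h3 : G.dist y x = 1 := SimpleGraph.dist_eq_one_iff_adj.2 hadj.symm
      have h4 : G.dist y r = G.dist r y := SimpleGraph.dist_comm
      have h5 : G.dist r y = n := by omega
      exact up_snoc (ih y h5) ⟨hadj.symm, by omega⟩

end up

theorem c6_limsup_ne_top :
    limsup (fun n : ℕ => ((c6 n : ENNReal)) ^ ((1 : ℝ) / n)) atTop ≠ ⊤ := by
  obtain ⟨C, hC⟩ := exists_upper
  have h : limsup (fun n : ℕ => ((c6 n : ENNReal)) ^ ((1 : ℝ) / n)) atTop ≤
      ENNReal.ofReal 4.39 := by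
    apply limsup_root_le (C := (C + 1 : ℝ)) (by positivity) (by norm_num)
    filter_upwards [eventually_ge_atTop 5] with n hn
    have h := hC (0, 0) (n - 5)
    rw [show n - 5 + 5 = n by omega] at h
    have h' : (100 : ℝ) ^ (n - 5) * (c6 n : ℝ) ≤ C * 439 ^ (n - 5) := by
      unfold c6
      exact_mod_cast h
    have h8 : (c6 n : ℝ) ≤ C * (4.39 : ℝ) ^ (n - 5) := by
      have e1 : (4.39 : ℝ) ^ (n - 5) * 100 ^ (n - 5) = 439 ^ (n - 5) := by
        rw [← mul_pow]
        norm_num
      have e2 : (0 : ℝ) < 100 ^ (n - 5) := by positivity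
      rw [← mul_le_mul_iff_of_pos_left e2]
      calc (100 : ℝ) ^ (n - 5) * (c6 n : ℝ) ≤ C * 439 ^ (n - 5) := h'
        _ = 100 ^ (n - 5) * (C * (4.39 : ℝ) ^ (n - 5)) := by rw [← e1]; ring
    calc (c6 n : ℝ) ≤ C * (4.39 : ℝ) ^ (n - 5) := h8
      _ ≤ (C + 1) * (4.39 : ℝ) ^ n := by
        apply mul_le_mul (by linarith) _ (by positivity) (by positivity)
        exact pow_le_pow_right₀ (by norm_num) (by omega)
  exact (h.trans_lt ENNReal.ofReal_lt_top).ne

/-- numerical lemma: few bad steps -/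
theorem num_b (M H : ℕ) (hM : 1 ≤ M) (hH : 1 ≤ H) (β : ℝ) (hβ : 0 < β) :
    ∃ δ : ℝ, 0 < δ ∧ ∀ᶠ i : ℕ in atTop, ∀ b cnt : ℕ, (cnt : ℝ) ≤ (1 + δ) ^ ((i + 2) * H) →
      (M + 1) ^ b ≤ (cnt + 1) * (i * H + 1) * M ^ b → (b : ℝ) ≤ β * i := by
  set L : ℝ := Real.log (1 + 1 / M) with hL
  have hM0 : (0 : ℝ) < M := by exact_mod_cast hM
  have hH0 : (0 : ℝ) < H := by exact_mod_cast hH
  have hLpos : 0 < L := Real.log_pos (by have : (0 : ℝ) < 1 / M := by positivity
                                         linarith)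
  set c : ℝ := β * L / 4 with hc
  have hcpos : 0 < c := by positivity
  refine ⟨c / H, by positivity, ?_⟩
  have e1 : ∀ᶠ i : ℕ in atTop, 2 * (H : ℝ) / c ^ 2 ≤ i :=
    tendsto_natCast_atTop_atTop.eventually_ge_atTop _
  have e2 : ∀ᶠ i : ℕ in atTop, (1 + 2 * c) / c ≤ i :=
    tendsto_natCast_atTop_atTop.eventually_ge_atTop _
  filter_upwards [e1, e2] with i h1 h2 b cnt hcnt hb
  have hb' : ((M : ℝ) + 1) ^ b ≤ (cnt + 1) * (i * H + 1) * M ^ b := by exact_mod_cast hb
  have hi0 : (0 : ℝ) ≤ i := Nat.cast_nonneg i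
  have k1 : Real.exp (b * L) ≤ (cnt + 1) * (i * H + 1) := by
    have : Real.exp (b * L) = ((M : ℝ) + 1) ^ b / M ^ b := by
      rw [← div_pow, ← Real.rpow_natCast, Real.rpow_def_of_pos (by positivity), mul_comm, hL]
      congr 3
      field_simp
    rw [this, div_le_iff₀ (by positivity)]
    exact hb'
  have k2 : (1 : ℝ) ≤ (1 + c / H) ^ ((i + 2) * H) := one_le_pow₀ (by
    have : 0 < c / H := by positivity
    linarith)
  have k3 : (1 + c / H) ^ ((i + 2) * H) ≤ Real.exp (c * (i + 2)) := by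
    have : (1 + c / H) ≤ Real.exp (c / H) := by
      have := Real.add_one_le_exp (c / H)
      linarith
    calc (1 + c / H) ^ ((i + 2) * H) ≤ (Real.exp (c / H)) ^ ((i + 2) * H) :=
          pow_le_pow_left₀ (by positivity) this _
      _ = Real.exp (c * (i + 2)) := by
          rw [← Real.exp_nat_mul]
          congr 1
          push_cast
          field_simp
  have k4 : (i : ℝ) * H + 1 ≤ Real.exp (c * i) := by
    have h3 := Real.quadratic_le_exp_of_nonneg (x := c * i) (by positivity)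
    have h4 : (i : ℝ) * H ≤ (c * i) ^ 2 / 2 := by
      rw [div_le_iff₀ (by positivity)] at h1
      nlinarith
    have h5 : 0 ≤ c * i := by positivity
    linarith
  have k5 : (cnt : ℝ) + 1 ≤ Real.exp 1 * Real.exp (c * (i + 2)) := by
    have h3 : (2 : ℝ) ≤ Real.exp 1 := by
      have := Real.add_one_le_exp (1 : ℝ)
      linarith
    have h4 : (cnt : ℝ) + 1 ≤ 2 * Real.exp (c * (i + 2)) := by linarith
    have h5 : 0 < Real.exp (c * (i + 2)) := Real.exp_pos _
    nlinarith
  have k6 : Real.exp (b * L) ≤ Real.exp (1 + c * (i + 2) + c * i) := by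
    rw [Real.exp_add, Real.exp_add]
    refine k1.trans ?_
    exact mul_le_mul k5 k4 (by positivity) (by positivity)
  have k7 := Real.exp_le_exp.1 k6
  rw [div_le_iff₀ hcpos] at h2
  have k8 : (b : ℝ) * L ≤ 3 * c * i := by nlinarith
  have k9 : (b : ℝ) * L ≤ β * i * L := by
    rw [hc] at k8
    nlinarith [mul_nonneg (mul_nonneg hβ.le hLpos.le) hi0]
  exact le_of_mul_le_mul_right k9 hLpos

/-- numerical lemma: choice of the exponent -/
theorem num_theta (ρ κ : ℝ) (hρ : 1 ≤ ρ) (hκ : 1 < κ) :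
    ∃ θ : ℝ, 0 < θ ∧ θ < 1 ∧ ρ ≤ κ * ρ ^ θ := by
  have h1 : 0 ≤ Real.log ρ := Real.log_nonneg hρ
  have h2 : 0 < Real.log κ := Real.log_pos hκ
  set t : ℝ := min (1 / 2) (Real.log κ / (Real.log ρ + 1)) with ht
  have ht0 : 0 < t := lt_min (by norm_num) (by positivity)
  have ht1 : t ≤ 1 / 2 := min_le_left _ _
  have ht2 : t * Real.log ρ ≤ Real.log κ := by
    have h3 : t ≤ Real.log κ / (Real.log ρ + 1) := min_le_right _ _
    rw [le_div_iff₀ (by positivity)] at h3
    nlinarith
  refine ⟨1 - t, by linarith, by linarith, ?_⟩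
  have h3 : ρ = ρ ^ t * ρ ^ (1 - t) := by
    rw [← Real.rpow_add (by linarith)]
    simp
  have h4 : ρ ^ t ≤ κ := by
    rw [Real.rpow_def_of_pos (by linarith), ← Real.exp_log (show 0 < κ by linarith)]
    exact Real.exp_le_exp.2 (by linarith)
  calc ρ = ρ ^ t * ρ ^ (1 - t) := h3
    _ ≤ κ * ρ ^ (1 - t) := mul_le_mul_of_nonneg_right h4 (by positivity)

theorem core (hLS : Stmt_LS) (hTRI : Stmt_TRI) (hROUTE : Stmt_ROUTE) (hCONC : Stmt_CONC)
    (hUPW : Stmt_UPW) (hVM : Stmt_VM) (hCOUNT : Stmt_COUNT) (N h : ℕ) (hN : 0 < N) (hh : 0 < h)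
    (h2 : 2 * h ≤ N) (ρ : ℝ) (hρ : 1 ≤ ρ) (hK : ρ ^ N ≤ ((VB N h).ncard : ℝ)) (θ : ℝ)
    (hθ0 : 0 < θ) (hθ1 : θ < 1) :
    ∃ H : ℕ, 0 < H ∧ ∃ δ : ℝ, 0 < δ ∧
      ∀ (V : Type) (G : SimpleGraph V) (F : Set (Finset V)), Tri V G F → ∀ v x1 : V, x1 ≠ v →
        (∃ᶠ i : ℕ in atTop, (cones G v x1 (i * H) : ℝ) ≤ (1 + δ) ^ ((i + 2) * H)) →
        ENNReal.ofReal (ρ ^ θ) ≤
          limsup (fun n : ℕ => (((PL G v n).ncard : ENNReal)) ^ ((1 : ℝ) / n)) atTop := by
  obtain ⟨m, hm⟩ := exists_nat_gt (4 * θ / (1 - θ))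
  have hθ2 : 0 < 1 - θ := by linarith
  rw [div_lt_iff₀ hθ2] at hm
  have hm0 : 0 < m := by
    rcases Nat.eq_zero_or_pos m with h0 | h0
    · subst h0
      simp at hm
      linarith
    · exact h0
  set H : ℕ := 2 * N + 2 * h * m with hH
  have hH0 : 0 < H := by omega
  have hHe : Even H := by
    rw [hH]
    exact ⟨N + h * m, by ring⟩
  have hH2 : H / 2 = N + h * m := by
    rw [hH, show 2 * N + 2 * h * m = (N + h * m) * 2 by ring]
    exact Nat.mul_div_cancel _ (by norm_num)
  obtain ⟨δ, hδ, hev⟩ := num_b (2 ^ H) H Nat.one_le_two_pow hH0 ((1 - θ) / 2) (by linarith)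
  refine ⟨H, hH0, δ, hδ, ?_⟩
  intro V G F hT v x1 hx1 hfr
  have hL : LevStr G v := hLS hT v
  have hfin : ∀ x, (G.neighborSet x).Finite := fun x => (hT.deg x).1
  set D : ℕ := G.dist v x1 with hD
  -- the number of walks through a good triangle
  have hgood : ∀ x, x ≠ v → Good G v H x →
      (VB N h).ncard ^ m ≤ (BRS G v x ((Phi G v)^[H / 2] x) (2 * N + m * N)).ncard := by
    intro x hx hg
    obtain ⟨ps, hps⟩ := hTRI hL H x hx hg
    rw [hH2]
    exact hVM hfin N h m x ps hN hh hps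
  have hN0 : (0 : ℝ) < N := by exact_mod_cast hN
  have hm1 : (0 : ℝ) < m := by exact_mod_cast hm0
  -- numerical constants
  set g : ℝ := (m : ℝ) * ((1 + θ) / 2) - θ * (m + 2) with hg
  have hg0 : 0 < g := by
    rw [hg]
    nlinarith
  refine le_limsup_of_frequently_le ?_ (by isBoundedDefault)
  · rw [frequently_atTop]
    intro a
    have e1 : ∀ᶠ i : ℕ in atTop, θ * D / (N * g) ≤ i :=
      tendsto_natCast_atTop_atTop.eventually_ge_atTop _
    obtain ⟨i, hia, hcnt, hi1, hi2⟩ := frequently_atTop.1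
      (hfr.and_eventually (hev.and e1)) (a + 1)
    obtain ⟨x, b, hrt, hb⟩ := hROUTE hL H x1 hHe (by omega) hx1 i
    have hbi := hi1 b _ hcnt hb
    obtain ⟨hbi', hlev, hcount⟩ := hCOUNT hL H _ (2 * N + m * N) x1 hHe hx1 hgood i b x hrt
    set n' : ℕ := D + ((i - b) * (2 * N + m * N) + b * H) with hn'
    have hHl : H ≤ 2 * N + m * N := by
      rw [hH]
      have := Nat.mul_le_mul_right m h2
      nlinarith
    have hi0 : 0 < i := by omega
    have hn1 : i ≤ n' := by
      rw [hn']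
      have h3 : (i - b) * 1 ≤ (i - b) * (2 * N + m * N) := Nat.mul_le_mul_left _ (by omega)
      have h4 : b * 1 ≤ b * H := Nat.mul_le_mul_left _ (by omega)
      omega
    refine ⟨n', by omega, ?_⟩
    -- lower bound for the number of walks
    have hpre := (hUPW hfin v x1 D (up_root hL.conn D x1 rfl)).1
    have hvv : G.dist v v = 0 := SimpleGraph.dist_self
    have hcc := hCONC (G := G) (r := v) hfin v x1 x D ((i - b) * (2 * N + m * N) + b * H)
      (by omega) (by omega)
    have hcard : ((VB N h).ncard ^ m) ^ (i - b) ≤ (PL G v n').ncard := by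
      calc ((VB N h).ncard ^ m) ^ (i - b) ≤
            (BRS G v x1 x ((i - b) * (2 * N + m * N) + b * H)).ncard := hcount
        _ ≤ (BRS G v v x1 D).ncard *
            (BRS G v x1 x ((i - b) * (2 * N + m * N) + b * H)).ncard :=
          Nat.le_mul_of_pos_left _ hpre
        _ ≤ (BRS G v v x n').ncard := hcc
        _ ≤ (PL G v n').ncard := Set.ncard_le_ncard (fun L hL' => hL'.1) (finite_PL hfin _ _)
    have hcardR : ρ ^ (N * m * (i - b)) ≤ ((PL G v n').ncard : ℝ) := by
      calc ρ ^ (N * m * (i - b)) = ((ρ ^ N) ^ m) ^ (i - b) := by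
            rw [← pow_mul, ← pow_mul, mul_assoc]
        _ ≤ (((VB N h).ncard : ℝ) ^ m) ^ (i - b) := by
          apply pow_le_pow_left₀ (by positivity)
          exact pow_le_pow_left₀ (by positivity) hK _
        _ ≤ ((PL G v n').ncard : ℝ) := by exact_mod_cast hcard
    -- the exponent
    have hiR : (0 : ℝ) ≤ i := Nat.cast_nonneg i
    have hbR : ((i - b : ℕ) : ℝ) = i - b := Nat.cast_sub hbi'
    have hb0 : (0 : ℝ) ≤ b := Nat.cast_nonneg b
    have hexp : θ * n' ≤ ((N * m * (i - b) : ℕ) : ℝ) := by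
      have h3 : (n' : ℝ) ≤ D + i * (N * (m + 2)) := by
        have h4 : n' ≤ D + i * (N * (m + 2)) := by
          rw [hn']
          have h5 : b * H ≤ b * (2 * N + m * N) := Nat.mul_le_mul_left _ hHl
          have h6 : (i - b) * (2 * N + m * N) + b * (2 * N + m * N) =
              i * (2 * N + m * N) := by
            rw [← Nat.add_mul, Nat.sub_add_cancel hbi']
          have h7 : i * (N * (m + 2)) = i * (2 * N + m * N) := by ring
          omega
        exact_mod_cast h4
      rw [div_le_iff₀ (by positivity)] at hi2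
      push_cast
      rw [hbR]
      have h8 : (1 - (1 - θ) / 2) * i ≤ (i : ℝ) - b := by linarith
      have h9 : (N : ℝ) * m * ((1 - (1 - θ) / 2) * i) ≤ N * m * (i - b) :=
        mul_le_mul_of_nonneg_left h8 (by positivity)
      have h10 : θ * n' ≤ θ * (D + i * (N * (m + 2))) :=
        mul_le_mul_of_nonneg_left h3 hθ0.le
      have h11 : θ * (D + i * (N * (m + 2))) ≤ (N : ℝ) * m * ((1 - (1 - θ) / 2) * i) := by
        rw [hg] at hi2
        nlinarith
      linarith
    have hn0 : (0 : ℝ) < n' := by exact_mod_cast (by omega : 0 < n')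
    have hfinal : ρ ^ (θ * n') ≤ ((PL G v n').ncard : ℝ) := by
      refine le_trans ?_ hcardR
      rw [← Real.rpow_natCast]
      exact Real.rpow_le_rpow_of_exponent_le hρ hexp
    have h12 : ENNReal.ofReal (ρ ^ θ) = (ENNReal.ofReal (ρ ^ (θ * n'))) ^ ((1 : ℝ) / n') := by
      rw [ENNReal.ofReal_rpow_of_nonneg (by positivity) (by positivity), ← Real.rpow_mul
        (by linarith)]
      congr 2
      field_simp
    rw [h12]
    apply ENNReal.rpow_le_rpow _ (by positivity)
    rw [← ENNReal.ofReal_natCast]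
    exact ENNReal.ofReal_le_ofReal hfinal

/-- The theorem. -/
theorem stmt_MAIN (hLS : Stmt_LS) (hTRI : Stmt_TRI) (hROUTE : Stmt_ROUTE) (hCONC : Stmt_CONC)
    (hUPW : Stmt_UPW) (hVM : Stmt_VM) (hCOUNT : Stmt_COUNT) (hVB : Stmt_VB) : Stmt_MAIN := by
  intro ε hε
  set L6 : ENNReal := limsup (fun n : ℕ => ((c6 n : ENNReal)) ^ ((1 : ℝ) / n)) atTop with hL6
  have htop : L6 ≠ ⊤ := c6_limsup_ne_top
  rcases eq_or_ne L6 0 with h0 | h0
  · exact ⟨1, one_pos, fun V G F hT v x0 _ => by rw [h0]; exact bot_le⟩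
  have hr0 : 0 < L6.toReal := ENNReal.toReal_pos h0 htop
  have hlt : ENNReal.ofReal (L6.toReal / (1 + ε / 3)) < L6 := by
    rw [← ENNReal.ofReal_toReal htop, ENNReal.ofReal_lt_ofReal_iff hr0,
      ENNReal.toReal_ofReal hr0.le]
    exact div_lt_self hr0 (by linarith)
  obtain ⟨N, h, hN, hh, h2, hK⟩ := hVB (L6.toReal / (1 + ε / 3)) (by positivity) hlt
  set ρ : ℝ := max (L6.toReal / (1 + ε / 3)) 1 with hρ
  have hρ1 : 1 ≤ ρ := le_max_right _ _
  have hKρ : ρ ^ N ≤ ((VB N h).ncard : ℝ) := by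
    rcases le_total (L6.toReal / (1 + ε / 3)) 1 with h3 | h3
    · rw [hρ, max_eq_right h3, one_pow]
      have h4 : (0 : ℝ) < ((VB N h).ncard : ℝ) := lt_of_lt_of_le (by positivity) hK
      exact_mod_cast h4
    · rw [hρ, max_eq_left h3]
      exact hK
  obtain ⟨θ, hθ0, hθ1, hθ⟩ := num_theta ρ ((1 + ε) / (1 + ε / 3)) hρ1 (by
    rw [lt_div_iff₀ (by positivity)]
    linarith)
  obtain ⟨H, hH0, δ, hδ, hcore⟩ := core hLS hTRI hROUTE hCONC hUPW hVM hCOUNT N h hN hh h2 ρ hρ1
    hKρ θ hθ0 hθ1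
  refine ⟨δ, hδ, ?_⟩
  intro V G F hT v x0 hfr
  -- it suffices to apply `core` to a suitable vertex
  have hsuff : ∃ x1 : V, x1 ≠ v ∧
      (∃ᶠ i : ℕ in atTop, (cones G v x1 (i * H) : ℝ) ≤ (1 + δ) ^ ((i + 2) * H)) := by
    have hc := hT.conn
    have hfin : ∀ n : ℕ, {y | 7 ≤ (G.neighborSet y).ncard ∧
        G.dist v y = G.dist v x0 + G.dist x0 y ∧ G.dist x0 y ≤ n}.Finite := by
      intro n
      have hb : ∀ n : ℕ, {y | G.dist x0 y ≤ n}.Finite := by
        intro n
        induction n with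
        | zero =>
          apply (Set.finite_singleton x0).subset
          intro y hy
          have : G.dist x0 y = 0 := Nat.le_zero.1 hy
          exact (hc.dist_eq_zero_iff.1 this).symm
        | succ n ih =>
          apply (ih.union (ih.biUnion (fun y _ => (hT.deg y).1))).subset
          intro y hy
          rcases Nat.lt_or_ge n (G.dist x0 y) with h5 | h5
          · right
            have h6 : G.dist x0 y = n + 1 := le_antisymm hy h5
            obtain ⟨c, hc1, hc2⟩ : ∃ c, Up G x0 n x0 c ∧ Ch G x0 c y := by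
              have h7 := up_root (r := x0) hc (n + 1) y h6
              clear hy h5
              have key : ∀ (n : ℕ) (a : V), Up G x0 (n + 1) a y →
                  ∃ c, Up G x0 n a c ∧ Ch G x0 c y := by
                intro n
                induction n with
                | zero =>
                  rintro a ⟨c, h8, h9⟩
                  cases h9
                  exact ⟨a, rfl, h8⟩
                | succ n ih2 =>
                  rintro a ⟨c, h8, h9⟩
                  obtain ⟨d, h10, h11⟩ := ih2 c h9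
                  exact ⟨d, ⟨c, h8, h10⟩, h11⟩
              exact key n x0 h7
            have h8 := (up_dist hc hc1).2
            exact Set.mem_biUnion (show c ∈ {y | G.dist x0 y ≤ n} from h8.le) hc2.1
          · left
            exact h5
      exact (hb n).subset fun y hy => hy.2.2
    obtain ⟨x1, hx1, hsub⟩ : ∃ x1 : V, x1 ≠ v ∧ ∀ j y, Up G v j x1 y →
        G.dist v y = G.dist v x0 + G.dist x0 y ∧ G.dist x0 y ≤ j + 1 := by
      by_cases hx : x0 = v
      · subst hx
        obtain ⟨y, hy⟩ : (G.neighborSet x0).Nonempty := by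
          rw [← Set.ncard_pos (hT.deg x0).1]
          have := (hT.deg x0).2
          omega
        have hy' : G.Adj x0 y := hy
        refine ⟨y, hy'.ne', ?_⟩
        intro j w hw
        have h3 := (up_dist hc hw).1
        have h4 : G.dist x0 y = 1 := SimpleGraph.dist_eq_one_iff_adj.2 hy'
        have h5 : G.dist x0 x0 = 0 := SimpleGraph.dist_self
        omega
      · refine ⟨x0, hx, ?_⟩
        intro j w hw
        have h3 := up_dist hc hw
        omega
    refine ⟨x1, hx1, ?_⟩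
    rw [frequently_atTop]
    intro a
    obtain ⟨n, hna, hn⟩ := frequently_atTop.1 hfr (a * H + 1)
    refine ⟨(n - 1) / H, ?_, ?_⟩
    · show a ≤ (n - 1) / H
      rw [Nat.le_div_iff_mul_le hH0]
      omega
    · have h3 : (n - 1) / H * H ≤ n - 1 := Nat.div_mul_le_self _ _
      have h4 : n - 1 < ((n - 1) / H + 1) * H := by
        rw [Nat.add_mul, one_mul, mul_comm]
        exact Nat.lt_mul_div_succ _ hH0 |>.trans_le (by rw [mul_add, mul_one])
      have h5 : n ≤ ((n - 1) / H + 2) * H := by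
        have : ((n - 1) / H + 2) * H = ((n - 1) / H + 1) * H + H := by ring
        omega
      have h6 : cones G v x1 ((n - 1) / H * H) ≤ {y | 7 ≤ (G.neighborSet y).ncard ∧
          G.dist v y = G.dist v x0 + G.dist x0 y ∧ G.dist x0 y ≤ n}.ncard := by
        apply Set.ncard_le_ncard _ (hfin n)
        rintro y ⟨h7, j, hj, h8⟩
        obtain ⟨h9, h10⟩ := hsub j y h8
        exact ⟨h7, h9, by omega⟩
      calc (cones G v x1 ((n - 1) / H * H) : ℝ) ≤ (({y | 7 ≤ (G.neighborSet y).ncard ∧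
          G.dist v y = G.dist v x0 + G.dist x0 y ∧ G.dist x0 y ≤ n}.ncard : ℕ) : ℝ) := by
            exact_mod_cast h6
        _ ≤ (1 + δ) ^ n := hn
        _ ≤ (1 + δ) ^ (((n - 1) / H + 2) * H) := pow_le_pow_right₀ (by linarith) h5
  obtain ⟨x1, hx1, hfr1⟩ := hsuff
  have hmain := hcore V G F hT v x1 hx1 hfr1
  calc L6 = ENNReal.ofReal L6.toReal := (ENNReal.ofReal_toReal htop).symm
    _ ≤ ENNReal.ofReal ((1 + ε) * ρ ^ θ) := by
      apply ENNReal.ofReal_le_ofReal
      have h3 : L6.toReal / (1 + ε / 3) ≤ ρ := le_max_left _ _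
      rw [div_le_iff₀ (by positivity)] at h3
      have h4 : (1 + ε / 3) * ρ ≤ (1 + ε) * ρ ^ θ := by
        calc (1 + ε / 3) * ρ ≤ (1 + ε / 3) * ((1 + ε) / (1 + ε / 3) * ρ ^ θ) :=
              mul_le_mul_of_nonneg_left hθ (by positivity)
          _ = (1 + ε) * ρ ^ θ := by field_simp
      linarith
    _ = ENNReal.ofReal (1 + ε) * ENNReal.ofReal (ρ ^ θ) :=
      ENNReal.ofReal_mul (by positivity)
    _ ≤ _ := mul_le_mul_right hmain _

end Pool.TriLev.helper33
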