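import Pool.Agent.Work.MP_91103f_lv_helper33.FIN
import Pool.Agent.Work.MP_91103f_lv_helper33.CONC

/-!
# Stronger form: the level function may be based at any vertex; limsup and liminf
-/

namespace Pool.TriLev.helper33

open Pool.Agent.Work.MP_91103f_co Filter

open Classical

section

variable {V : Type} {G : SimpleGraph V} {r : V}

theorem walk_mem_PL {u w : V} (p : G.Walk u w) (hp : p.IsPath) :
    p.support.tail ∈ PL G u p.length ∧ p.support.tail.getLastD u = w := by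
  have h3 : u :: p.support.tail = p.support := by
    cases p <;> simp
  refine ⟨⟨?_, ?_, ?_⟩, ?_⟩
  · rw [h3]
    exact p.isChain_adj_support
  · rw [h3]
    exact hp.support_nodup
  · rw [List.length_tail, SimpleGraph.Walk.length_support]
    rfl
  · clear hp h3
    induction p with
    | nil => rfl
    | @cons a b c hadj q ih =>
      rw [SimpleGraph.Walk.support_cons, List.tail_cons]
      have h4 : q.support = b :: q.support.tail := by
        cases q <;> simp
      rw [h4, List.getLastD_cons]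
      exact ih

theorem exists_low_path (hc : G.Connected) (v x1 : V) (h : G.dist r v ≤ G.dist r x1) :
    ∃ (D : ℕ) (P : List V), P ∈ PL G v D ∧ P.getLastD v = x1 ∧
      ∀ p ∈ v :: P, G.dist r p ≤ G.dist r x1 := by
  obtain ⟨p1, hp1⟩ := hc.exists_walk_length_eq_dist r v
  obtain ⟨p2, hp2⟩ := hc.exists_walk_length_eq_dist r x1
  set W := p1.reverse.append p2 with hW
  obtain ⟨h1, h2⟩ := walk_mem_PL W.bypass (SimpleGraph.Walk.bypass_isPath W)
  refine ⟨_, _, h1, h2, ?_⟩
  intro p hp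
  have h3 : p ∈ W.bypass.support := by
    have : W.bypass.support = v :: W.bypass.support.tail := by
      cases W.bypass <;> simp
    rw [this]
    exact hp
  have h4 : p ∈ W.support := SimpleGraph.Walk.support_bypass_subset W h3
  have key : ∀ {w : V} (q : G.Walk r w), q.length = G.dist r w → p ∈ q.support →
      G.dist r p ≤ G.dist r w := by
    intro w q hq hpq
    have h5 := SimpleGraph.dist_le (q.takeUntil p hpq)
    have h6 := SimpleGraph.Walk.length_takeUntil_le q hpq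
    omega
  rw [hW, SimpleGraph.Walk.mem_support_append_iff, SimpleGraph.Walk.support_reverse,
    List.mem_reverse] at h4
  rcases h4 with h4 | h4
  · exact (key p1 hp1 h4).trans h
  · exact key p2 hp2 h4

theorem pre_append {v x1 x : V} {D n : ℕ} {P L : List V} (hP : P ∈ PL G v D)
    (hP1 : P.getLastD v = x1) (hP2 : ∀ p ∈ v :: P, G.dist r p ≤ G.dist r x1)
    (hL : L ∈ BRS G r x1 x n) : P ++ L ∈ PL G v (D + n) := by
  obtain ⟨c1, c2, c3⟩ := hP
  obtain ⟨⟨d1, d2, d3⟩, d4, d5⟩ := hL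
  refine ⟨chain_append P L v c1 (by rw [hP1]; exact d1), ?_, by simp [c3, d3]⟩
  rw [← List.cons_append, List.nodup_append]
  refine ⟨c2, (List.nodup_cons.1 d2).2, ?_⟩
  rintro a ha b hb rfl
  have h3 := hP2 a ha
  have h4 := (d5 a hb).1
  omega

theorem BRS_le_PL (hfin : ∀ x, (G.neighborSet x).Finite) {v x1 x : V} {D n : ℕ} {P : List V}
    (hP : P ∈ PL G v D) (hP1 : P.getLastD v = x1)
    (hP2 : ∀ p ∈ v :: P, G.dist r p ≤ G.dist r x1) :
    (BRS G r x1 x n).ncard ≤ (PL G v (D + n)).ncard := by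
  refine Set.ncard_le_ncard_of_injOn (fun L => P ++ L) ?_ ?_ (finite_PL hfin _ _)
  · intro L hL
    exact pre_append hP hP1 hP2 hL
  · intro L _ L' _ h
    exact List.append_cancel_left h

theorem exists_up (hL : LevStr G r) (k : ℕ) : ∀ x, x ≠ r → ∃ y, Up G r k x y := by
  induction k with
  | zero => intro x _; exact ⟨x, rfl⟩
  | succ k ih =>
    intro x hx
    have h1 := hL.two x hx
    have h2 : {c | Ch G r x c}.Nonempty := by
      apply Set.nonempty_of_ncard_ne_zero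
      unfold nch at h1
      omega
    obtain ⟨c, hc⟩ := h2
    have hcr : c ≠ r := by
      rintro rfl
      have h3 := hc.2
      rw [SimpleGraph.dist_self] at h3
      omega
    obtain ⟨y, hy⟩ := ih c hcr
    exact ⟨y, c, hc, hy⟩

theorem up_trans {k : ℕ} : ∀ {j : ℕ} {x y w : V}, Up G r j x y → Up G r k y w →
    Up G r (j + k) x w := by
  intro j
  induction j with
  | zero =>
    intro x y w h h'
    cases h
    rw [Nat.zero_add]
    exact h'
  | succ j ih =>
    rintro x y w ⟨c, hc, h⟩ h'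
    rw [show j + 1 + k = (j + k) + 1 by omega]
    exact ⟨c, hc, ih h h'⟩

/-- a vertex above `x0` of high level -/
theorem exists_above (hL : LevStr G r) (x0 : V) (hne : (G.neighborSet x0).Nonempty) (k : ℕ) :
    ∃ (j : ℕ) (x1 : V), Up G r j x0 x1 ∧ x1 ≠ r ∧ k ≤ G.dist r x1 := by
  have h1 : ∃ (j : ℕ) (y : V), Up G r j x0 y ∧ y ≠ r := by
    by_cases hx : x0 = r
    · subst hx
      obtain ⟨y, hy⟩ := hne
      have hy' : G.Adj x0 y := hy
      refine ⟨1, y, ⟨y, ⟨hy', ?_⟩, rfl⟩, hy'.ne'⟩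
      rw [SimpleGraph.dist_self, SimpleGraph.dist_eq_one_iff_adj.2 hy']
    · exact ⟨0, x0, rfl, hx⟩
  obtain ⟨j, y, hy, hyr⟩ := h1
  obtain ⟨x1, hx1⟩ := exists_up hL k y hyr
  have h2 := up_dist hL.conn hx1
  refine ⟨j + k, x1, up_trans hy hx1, ?_, by omega⟩
  rintro rfl
  have h3 : G.dist x1 x1 = 0 := SimpleGraph.dist_self
  have h4 : G.dist x1 y = 0 := by omega
  exact hyr (hL.conn.dist_eq_zero_iff.1 h4).symm

theorem ball_finite (hc : G.Connected) (hfin : ∀ x, (G.neighborSet x).Finite) (x0 : V) :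
    ∀ n : ℕ, {y | G.dist x0 y ≤ n}.Finite := by
  intro n
  induction n with
  | zero =>
    apply (Set.finite_singleton x0).subset
    intro y hy
    have : G.dist x0 y = 0 := Nat.le_zero.1 hy
    exact (hc.dist_eq_zero_iff.1 this).symm
  | succ n ih =>
    apply (ih.union (ih.biUnion (fun y _ => hfin y))).subset
    intro y hy
    rcases Nat.lt_or_ge n (G.dist x0 y) with h5 | h5
    · right
      have h6 : G.dist x0 y = n + 1 := le_antisymm hy h5
      obtain ⟨c, hc1, hc2⟩ : ∃ c, Up G x0 n x0 c ∧ Ch G x0 c y := by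
        have h7 := up_root (r := x0) hc (n + 1) y h6
        clear hy h5
        have key : ∀ (n : ℕ) (a : V), Up G x0 (n + 1) a y →
            ∃ c, Up G x0 n a c ∧ Ch G x0 c y := by
          intro n
          induction n with
          | zero =>
            rintro a ⟨c, h8, h9⟩
            cases h9
            exact ⟨a, rfl, h8⟩
          | succ n ih2 =>
            rintro a ⟨c, h8, h9⟩
            obtain ⟨d, h10, h11⟩ := ih2 c h9
            exact ⟨d, ⟨c, h8, h10⟩, h11⟩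
        exact key n x0 h7
      have h8 := (up_dist hc hc1).2
      exact Set.mem_biUnion (show c ∈ {y | G.dist x0 y ≤ n} from h8.le) hc2.1
    · left
      exact h5

end

theorem core2 (hLS : Stmt_LS) (hTRI : Stmt_TRI) (hROUTE : Stmt_ROUTE) (hCONC : Stmt_CONC)
    (hUPW : Stmt_UPW) (hVM : Stmt_VM) (hCOUNT : Stmt_COUNT) (N h : ℕ) (hN : 0 < N) (hh : 0 < h)
    (h2 : 2 * h ≤ N) (ρ : ℝ) (hρ : 1 ≤ ρ) (hK : ρ ^ N ≤ ((VB N h).ncard : ℝ)) (θ : ℝ)
    (hθ0 : 0 < θ) (hθ1 : θ < 1) :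
    ∃ H l : ℕ, 0 < H ∧ 0 < l ∧ ∃ δ : ℝ, 0 < δ ∧
      ∀ (V : Type) (G : SimpleGraph V) (F : Set (Finset V)), Tri V G F →
        ∀ r x1 v : V, x1 ≠ r → G.dist r v ≤ G.dist r x1 →
        ∃ D : ℕ, ∀ᶠ i : ℕ in atTop, (cones G r x1 (i * H) : ℝ) ≤ (1 + δ) ^ ((i + 2) * H) →
          ∀ n : ℕ, D + i * l ≤ n → n ≤ D + (i + 1) * l →
            ρ ^ (θ * n) ≤ ((PL G v n).ncard : ℝ) := by
  obtain ⟨m, hm⟩ := exists_nat_gt (4 * θ / (1 - θ))
  have hθ2 : 0 < 1 - θ := by linarith
  rw [div_lt_iff₀ hθ2] at hm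
  have hm0 : 0 < m := by
    rcases Nat.eq_zero_or_pos m with h0 | h0
    · subst h0
      simp at hm
      linarith
    · exact h0
  set H : ℕ := 2 * N + 2 * h * m with hH
  have hH0 : 0 < H := by omega
  have hHe : Even H := by
    rw [hH]
    exact ⟨N + h * m, by ring⟩
  have hH2 : H / 2 = N + h * m := by
    rw [hH, show 2 * N + 2 * h * m = (N + h * m) * 2 by ring]
    exact Nat.mul_div_cancel _ (by norm_num)
  obtain ⟨δ, hδ, hev⟩ := num_b (2 ^ H) H Nat.one_le_two_pow hH0 ((1 - θ) / 2) (by linarith)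
  refine ⟨H, 2 * N + m * N, hH0, by omega, δ, hδ, ?_⟩
  intro V G F hT r x1 v hx1 hv
  have hL : LevStr G r := hLS hT r
  have hfin : ∀ x, (G.neighborSet x).Finite := fun x => (hT.deg x).1
  obtain ⟨D, P, hP, hP1, hP2⟩ := exists_low_path (r := r) hT.conn v x1 hv
  -- the number of walks through a good triangle
  have hgood : ∀ x, x ≠ r → Good G r H x →
      (VB N h).ncard ^ m ≤ (BRS G r x ((Phi G r)^[H / 2] x) (2 * N + m * N)).ncard := by
    intro x hx hg
    obtain ⟨ps, hps⟩ := hTRI hL H x hx hg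
    rw [hH2]
    exact hVM hfin N h m x ps hN hh hps
  have hN0 : (0 : ℝ) < N := by exact_mod_cast hN
  have hm1 : (0 : ℝ) < m := by exact_mod_cast hm0
  -- numerical constants
  set g : ℝ := (m : ℝ) * ((1 + θ) / 2) - θ * (m + 2) with hg
  have hg0 : 0 < g := by
    rw [hg]
    nlinarith
  refine ⟨D, ?_⟩
  have e1 : ∀ᶠ i : ℕ in atTop, θ * (D + N * (m + 2)) / (N * g) ≤ i :=
    tendsto_natCast_atTop_atTop.eventually_ge_atTop _
  filter_upwards [hev, e1] with i hi1 hi2 hcnt n hn1 hn2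
  obtain ⟨x, b, hrt, hb⟩ := hROUTE hL H x1 hHe (by omega) hx1 i
  have hbi := hi1 b _ hcnt hb
  obtain ⟨hbi', hlev, hcount⟩ := hCOUNT hL H _ (2 * N + m * N) x1 hHe hx1 hgood i b x hrt
  have hHl : H ≤ 2 * N + m * N := by
    rw [hH]
    have := Nat.mul_le_mul_right m h2
    nlinarith
  have hle : (i - b) * (2 * N + m * N) + b * H ≤ i * (2 * N + m * N) := by
    have h5 : b * H ≤ b * (2 * N + m * N) := Nat.mul_le_mul_left _ hHl
    have h6 : (i - b) * (2 * N + m * N) + b * (2 * N + m * N) = i * (2 * N + m * N) := by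
      rw [← Nat.add_mul, Nat.sub_add_cancel hbi']
    omega
  obtain ⟨k, hk⟩ : ∃ k, n = D + ((i - b) * (2 * N + m * N) + b * H + k) :=
    ⟨n - D - ((i - b) * (2 * N + m * N) + b * H), by omega⟩
  have hxr : x ≠ r := by
    rintro rfl
    have h3 : G.dist x x = 0 := SimpleGraph.dist_self
    have h4 : G.dist x x1 = 0 := by omega
    exact hx1 (hT.conn.dist_eq_zero_iff.1 h4).symm
  obtain ⟨y, hy⟩ := exists_up hL k x hxr
  obtain ⟨hy1, hy2⟩ := hUPW hfin x y k hy
  have hcc := hCONC (G := G) (r := r) hfin x1 x y ((i - b) * (2 * N + m * N) + b * H) k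
    (by omega) (by omega)
  have hcard : ((VB N h).ncard ^ m) ^ (i - b) ≤ (PL G v n).ncard := by
    calc ((VB N h).ncard ^ m) ^ (i - b) ≤
          (BRS G r x1 x ((i - b) * (2 * N + m * N) + b * H)).ncard := hcount
      _ ≤ (BRS G r x1 x ((i - b) * (2 * N + m * N) + b * H)).ncard * (BRS G r x y k).ncard :=
        Nat.le_mul_of_pos_right _ hy1
      _ ≤ (BRS G r x1 y ((i - b) * (2 * N + m * N) + b * H + k)).ncard := hcc
      _ ≤ (PL G v n).ncard := by
        rw [hk]
        exact BRS_le_PL hfin hP hP1 hP2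
  have hcardR : ρ ^ (N * m * (i - b)) ≤ ((PL G v n).ncard : ℝ) := by
    calc ρ ^ (N * m * (i - b)) = ((ρ ^ N) ^ m) ^ (i - b) := by
          rw [← pow_mul, ← pow_mul, mul_assoc]
      _ ≤ (((VB N h).ncard : ℝ) ^ m) ^ (i - b) := by
        apply pow_le_pow_left₀ (by positivity)
        exact pow_le_pow_left₀ (by positivity) hK _
      _ ≤ ((PL G v n).ncard : ℝ) := by exact_mod_cast hcard
  -- the exponent
  have hiR : (0 : ℝ) ≤ i := Nat.cast_nonneg i
  have hbR : ((i - b : ℕ) : ℝ) = i - b := Nat.cast_sub hbi'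
  have hexp : θ * n ≤ ((N * m * (i - b) : ℕ) : ℝ) := by
    have h3 : (n : ℝ) ≤ D + (i + 1) * (2 * N + m * N) := by exact_mod_cast hn2
    rw [div_le_iff₀ (by positivity)] at hi2
    push_cast
    rw [hbR]
    have h8 : (1 - (1 - θ) / 2) * i ≤ (i : ℝ) - b := by linarith
    have h9 : (N : ℝ) * m * ((1 - (1 - θ) / 2) * i) ≤ N * m * (i - b) :=
      mul_le_mul_of_nonneg_left h8 (by positivity)
    have h10 : θ * n ≤ θ * (D + (i + 1) * (2 * N + m * N)) :=
      mul_le_mul_of_nonneg_left h3 hθ0.le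
    have h11 : θ * (D + (i + 1) * (2 * N + m * N)) ≤
        (N : ℝ) * m * ((1 - (1 - θ) / 2) * i) := by
      rw [hg] at hi2
      nlinarith
    linarith
  refine le_trans ?_ hcardR
  rw [← Real.rpow_natCast]
  exact Real.rpow_le_rpow_of_exponent_le hρ hexp

theorem root_le {ρ θ : ℝ} (hρ : 1 ≤ ρ) {n c : ℕ} (hn : 0 < n)
    (h : ρ ^ (θ * n) ≤ (c : ℝ)) :
    ENNReal.ofReal (ρ ^ θ) ≤ ((c : ENNReal)) ^ ((1 : ℝ) / n) := by
  have hn0 : (0 : ℝ) < n := by exact_mod_cast hn
  have h12 : ENNReal.ofReal (ρ ^ θ) = (ENNReal.ofReal (ρ ^ (θ * n))) ^ ((1 : ℝ) / n) := by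
    rw [ENNReal.ofReal_rpow_of_nonneg (by positivity) (by positivity), ← Real.rpow_mul
      (by linarith)]
    congr 2
    field_simp
  rw [h12]
  apply ENNReal.rpow_le_rpow _ (by positivity)
  rw [← ENNReal.ofReal_natCast]
  exact ENNReal.ofReal_le_ofReal h

/-- passing to a slightly smaller growth rate -/
theorem pow_shift (δ : ℝ) (hδ : 0 < δ) (H j : ℕ) (hH : 0 < H) :
    ∀ᶠ i : ℕ in atTop, (1 + δ / 2) ^ ((i + 1) * H + j) ≤ (1 + δ) ^ ((i + 2) * H) := by
  set q : ℝ := (1 + δ) / (1 + δ / 2) with hq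
  have hq1 : 1 < q := by
    rw [hq, lt_div_iff₀ (by positivity)]
    linarith
  have h1 : Tendsto (fun i : ℕ => q ^ i) atTop atTop := tendsto_pow_atTop_atTop_of_one_lt hq1
  filter_upwards [h1.eventually_ge_atTop ((1 + δ / 2) ^ (j))] with i hi
  have h2 : q ^ i ≤ q ^ ((i + 1) * H) := by
    apply pow_le_pow_right₀ hq1.le
    nlinarith
  have h3 : (1 + δ) ^ ((i + 1) * H) = q ^ ((i + 1) * H) * (1 + δ / 2) ^ ((i + 1) * H) := by
    rw [hq, div_pow]
    field_simp
  calc (1 + δ / 2) ^ ((i + 1) * H + j) = (1 + δ / 2) ^ j * (1 + δ / 2) ^ ((i + 1) * H) := by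
        rw [pow_add, mul_comm]
    _ ≤ q ^ ((i + 1) * H) * (1 + δ / 2) ^ ((i + 1) * H) :=
        mul_le_mul_of_nonneg_right (hi.trans h2) (by positivity)
    _ = (1 + δ) ^ ((i + 1) * H) := h3.symm
    _ ≤ (1 + δ) ^ ((i + 2) * H) := by
        apply pow_le_pow_right₀ (by linarith)
        nlinarith

/-- The theorem. -/
theorem main3 (hLS : Stmt_LS) (hTRI : Stmt_TRI) (hROUTE : Stmt_ROUTE) (hCONC : Stmt_CONC)
    (hUPW : Stmt_UPW) (hVM : Stmt_VM) (hCOUNT : Stmt_COUNT) (hVB : Stmt_VB) :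
    ∀ ε : ℝ, 0 < ε → ∃ δ : ℝ, 0 < δ ∧
    ∀ (V : Type) (G : SimpleGraph V) (F : Set (Finset V)), Tri V G F → ∀ r x0 v : V,
      ((∃ᶠ n : ℕ in Filter.atTop, (({y | 7 ≤ (G.neighborSet y).ncard ∧
        G.dist r y = G.dist r x0 + G.dist x0 y ∧ G.dist x0 y ≤ n}.ncard : ℕ) : ℝ) ≤
          (1 + δ) ^ n) →
      Filter.limsup (fun n : ℕ => ((c6 n : ENNReal)) ^ ((1 : ℝ) / n)) Filter.atTop ≤
        ENNReal.ofReal (1 + ε) *
          Filter.limsup (fun n : ℕ => (((PL G v n).ncard : ENNReal)) ^ ((1 : ℝ) / n))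
            Filter.atTop) ∧
      ((∀ᶠ n : ℕ in Filter.atTop, (({y | 7 ≤ (G.neighborSet y).ncard ∧
        G.dist r y = G.dist r x0 + G.dist x0 y ∧ G.dist x0 y ≤ n}.ncard : ℕ) : ℝ) ≤
          (1 + δ) ^ n) →
      Filter.limsup (fun n : ℕ => ((c6 n : ENNReal)) ^ ((1 : ℝ) / n)) Filter.atTop ≤
        ENNReal.ofReal (1 + ε) *
          Filter.liminf (fun n : ℕ => (((PL G v n).ncard : ENNReal)) ^ ((1 : ℝ) / n))
            Filter.atTop) := by
  intro ε hε
  set L6 : ENNReal := limsup (fun n : ℕ => ((c6 n : ENNReal)) ^ ((1 : ℝ) / n)) atTop with hL6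
  have htop : L6 ≠ ⊤ := c6_limsup_ne_top
  rcases eq_or_ne L6 0 with h0 | h0
  · exact ⟨1, one_pos, fun V G F hT r x0 v => ⟨fun _ => by rw [h0]; exact bot_le,
      fun _ => by rw [h0]; exact bot_le⟩⟩
  have hr0 : 0 < L6.toReal := ENNReal.toReal_pos h0 htop
  have hlt : ENNReal.ofReal (L6.toReal / (1 + ε / 3)) < L6 := by
    rw [← ENNReal.ofReal_toReal htop, ENNReal.ofReal_lt_ofReal_iff hr0,
      ENNReal.toReal_ofReal hr0.le]
    exact div_lt_self hr0 (by linarith)
  obtain ⟨N, h, hN, hh, h2, hK⟩ := hVB (L6.toReal / (1 + ε / 3)) (by positivity) hlt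
  set ρ : ℝ := max (L6.toReal / (1 + ε / 3)) 1 with hρ
  have hρ1 : 1 ≤ ρ := le_max_right _ _
  have hKρ : ρ ^ N ≤ ((VB N h).ncard : ℝ) := by
    rcases le_total (L6.toReal / (1 + ε / 3)) 1 with h3 | h3
    · rw [hρ, max_eq_right h3, one_pow]
      have h4 : (0 : ℝ) < ((VB N h).ncard : ℝ) := lt_of_lt_of_le (by positivity) hK
      exact_mod_cast h4
    · rw [hρ, max_eq_left h3]
      exact hK
  obtain ⟨θ, hθ0, hθ1, hθ⟩ := num_theta ρ ((1 + ε) / (1 + ε / 3)) hρ1 (by
    rw [lt_div_iff₀ (by positivity)]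
    linarith)
  obtain ⟨H, l, hH0, hl0, δ, hδ, hcore⟩ := core2 hLS hTRI hROUTE hCONC hUPW hVM hCOUNT N h hN hh
    h2 ρ hρ1 hKρ θ hθ0 hθ1
  refine ⟨δ / 2, by positivity, ?_⟩
  intro V G F hT r x0 v
  have hc := hT.conn
  have hL : LevStr G r := hLS hT r
  have hfin : ∀ x, (G.neighborSet x).Finite := fun x => (hT.deg x).1
  have hne : (G.neighborSet x0).Nonempty := by
    rw [← Set.ncard_pos (hT.deg x0).1]
    have := (hT.deg x0).2
    omega
  obtain ⟨j, x1, hup, hx1, hv⟩ := exists_above hL x0 hne (G.dist r v)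
  obtain ⟨D, hD⟩ := hcore V G F hT r x1 v hx1 hv
  have hcones : ∀ i n : ℕ, i * H + j ≤ n → cones G r x1 (i * H) ≤
      {y | 7 ≤ (G.neighborSet y).ncard ∧
        G.dist r y = G.dist r x0 + G.dist x0 y ∧ G.dist x0 y ≤ n}.ncard := by
    intro i n hin
    apply Set.ncard_le_ncard _ ((ball_finite hc hfin x0 n).subset fun y hy => hy.2.2)
    rintro y ⟨h7, k, hk, h8⟩
    have h9 := up_dist hc (up_trans hup h8)
    refine ⟨h7, by omega, by omega⟩
  -- the final estimate
  have hfinal : ∀ M : ENNReal, ENNReal.ofReal (ρ ^ θ) ≤ M → L6 ≤ ENNReal.ofReal (1 + ε) * M := by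
    intro M hM
    calc L6 = ENNReal.ofReal L6.toReal := (ENNReal.ofReal_toReal htop).symm
      _ ≤ ENNReal.ofReal ((1 + ε) * ρ ^ θ) := by
        apply ENNReal.ofReal_le_ofReal
        have h3 : L6.toReal / (1 + ε / 3) ≤ ρ := le_max_left _ _
        rw [div_le_iff₀ (by positivity)] at h3
        have h4 : (1 + ε / 3) * ρ ≤ (1 + ε) * ρ ^ θ := by
          calc (1 + ε / 3) * ρ ≤ (1 + ε / 3) * ((1 + ε) / (1 + ε / 3) * ρ ^ θ) :=
                mul_le_mul_of_nonneg_left hθ (by positivity)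
            _ = (1 + ε) * ρ ^ θ := by field_simp
        linarith
      _ = ENNReal.ofReal (1 + ε) * ENNReal.ofReal (ρ ^ θ) :=
        ENNReal.ofReal_mul (by positivity)
      _ ≤ _ := mul_le_mul_right hM _
  have hps := pow_shift δ hδ H j hH0
  refine ⟨fun hfr => hfinal _ ?_, fun hev => hfinal _ ?_⟩
  · refine le_limsup_of_frequently_le ?_ (by isBoundedDefault)
    rw [frequently_atTop]
    intro a
    obtain ⟨i0, hi0⟩ := eventually_atTop.1 (hD.and hps)
    obtain ⟨n, hna, hn⟩ := frequently_atTop.1 hfr ((max i0 (a + 1)) * H + j)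
    set i : ℕ := (n - j) / H with hi
    have hi1 : max i0 (a + 1) ≤ i := by
      rw [hi, Nat.le_div_iff_mul_le hH0]
      omega
    have hjn : j ≤ n := le_trans (Nat.le_add_left _ _) hna
    have hi2 : i * H + j ≤ n := by
      have h3 : i * H ≤ n - j := Nat.div_mul_le_self (n - j) H
      omega
    have hi3 : n ≤ (i + 1) * H + j := by
      have h3 : n - j < ((n - j) / H + 1) * H := by
        rw [Nat.add_mul, one_mul, mul_comm]
        exact (Nat.lt_mul_div_succ _ hH0).trans_le (by rw [mul_add, mul_one])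
      rw [← hi] at h3
      omega
    obtain ⟨h5, h6⟩ := hi0 i ((le_max_left _ _).trans hi1)
    have h7 : (cones G r x1 (i * H) : ℝ) ≤ (1 + δ) ^ ((i + 2) * H) := by
      calc (cones G r x1 (i * H) : ℝ) ≤ (({y | 7 ≤ (G.neighborSet y).ncard ∧
          G.dist r y = G.dist r x0 + G.dist x0 y ∧ G.dist x0 y ≤ n}.ncard : ℕ) : ℝ) := by
            exact_mod_cast hcones i n hi2
        _ ≤ (1 + δ / 2) ^ n := hn
        _ ≤ (1 + δ / 2) ^ ((i + 1) * H + j) := pow_le_pow_right₀ (by linarith) hi3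
        _ ≤ _ := h6
    have h8 : a + 1 ≤ i := (le_max_right _ _).trans hi1
    have h9 : i * 1 ≤ i * l := Nat.mul_le_mul_left _ hl0
    have h10 : (i + 1) * l = i * l + l := by ring
    refine ⟨D + i * l, by omega, ?_⟩
    exact root_le hρ1 (by omega) (h5 h7 (D + i * l) le_rfl (by omega))
  · refine le_liminf_of_le (by isBoundedDefault) ?_
    obtain ⟨i0, hi0⟩ := eventually_atTop.1 (hD.and hps)
    obtain ⟨n0, hn0⟩ := eventually_atTop.1 hev
    filter_upwards [eventually_ge_atTop (D + (max i0 (n0 + 1)) * l)] with n hn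
    set i : ℕ := (n - D) / l with hi
    have hi1 : max i0 (n0 + 1) ≤ i := by
      rw [hi, Nat.le_div_iff_mul_le hl0]
      omega
    have hDn : D ≤ n := le_trans (Nat.le_add_right _ _) hn
    have hi2 : D + i * l ≤ n := by
      have h3 : i * l ≤ n - D := Nat.div_mul_le_self (n - D) l
      omega
    have hi3 : n ≤ D + (i + 1) * l := by
      have h3 : n - D < ((n - D) / l + 1) * l := by
        rw [Nat.add_mul, one_mul, mul_comm]
        exact (Nat.lt_mul_div_succ _ hl0).trans_le (by rw [mul_add, mul_one])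
      rw [← hi] at h3
      omega
    obtain ⟨h5, h6⟩ := hi0 i ((le_max_left _ _).trans hi1)
    have h8 : n0 + 1 ≤ i := (le_max_right _ _).trans hi1
    have h9 : i * 1 ≤ i * H := Nat.mul_le_mul_left _ hH0
    have h9' : i * 1 ≤ i * l := Nat.mul_le_mul_left _ hl0
    have h7 : (cones G r x1 (i * H) : ℝ) ≤ (1 + δ) ^ ((i + 2) * H) := by
      have h11 : (i + 1) * H + j = i * H + j + H := by ring
      calc (cones G r x1 (i * H) : ℝ) ≤ (({y | 7 ≤ (G.neighborSet y).ncard ∧
          G.dist r y = G.dist r x0 + G.dist x0 y ∧ G.dist x0 y ≤ i * H + j}.ncard : ℕ) : ℝ) := by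
            exact_mod_cast hcones i (i * H + j) le_rfl
        _ ≤ (1 + δ / 2) ^ (i * H + j) := hn0 _ (by omega)
        _ ≤ (1 + δ / 2) ^ ((i + 1) * H + j) := pow_le_pow_right₀ (by linarith) (by omega)
        _ ≤ _ := h6
    exact root_le hρ1 (by omega) (h5 h7 n hi2 hi3)

end Pool.TriLev.helper33
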