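import Pool.Agent.Work.MP_91103f_lv.Interface

namespace Pool.TriLev.helper33

open Pool.Agent.Work.MP_91103f_co

open Classical

section

variable {V : Type} {G : SimpleGraph V} {F : Set (Finset V)}

theorem lev_adj (hc : G.Connected) (r : V) {a b : V} (h : G.Adj a b) :
    G.dist r a ≤ G.dist r b + 1 := by
  have h1 : G.dist r a ≤ G.dist r b + G.dist b a := hc.dist_triangle
  have h2 : G.dist b a = 1 := SimpleGraph.dist_eq_one_iff_adj.2 h.symm
  omega

theorem lh_top (hS : Stmt_SIDE) (hF : Stmt_FAN) (hT : Tri V G F) (r y : V)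
    (S : Finset (Finset V)) (s : ℕ) (A : ℕ → V) (hsub : ∀ f ∈ S, f ∈ F) (hs : 1 ≤ s)
    (hA : ∀ t < s, Ch G r (A (t + 1)) (A t))
    (hbA : ∀ t, 1 ≤ t → t < s → ∀ c, G.Adj (A t) c →
      (Odd (ct S s(A t, c)) ↔ c = A (t - 1) ∨ c = A (t + 1)))
    (hxy : G.Adj (A 0) y) (hlev : G.dist r (A 0) = G.dist r y)
    (h0 : ∀ c, G.Adj (A 0) c → (Odd (ct S s(A 0, c)) ↔ c = A 1 ∨ c = y))
    (hno : ∀ w, Ch G r w (A 0) → ¬ Ch G r w y) :
    ∑ t ∈ Finset.Ico 1 s, (3 - (av S (A t) : ℤ)) + (3 - (av S (A 0) : ℤ)) ≤ 1 := by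
  have hc := hT.conn
  have hA0 : Ch G r (A 1) (A 0) := hA 0 (by omega)
  have hne : A 1 ≠ y := by
    intro h
    have := hA0.2
    rw [h] at this
    omega
  obtain ⟨g, g1, g2, g3, g4⟩ := hF hT S (A 0) (A 1) y hsub hA0.1.symm hxy hne h0
  obtain ⟨s1, s2⟩ := hS hT r S s A hsub hs hA ((h0 _ hA0.1.symm).2 (Or.inl rfl)) hbA
  rcases Nat.lt_or_ge (av S (A 0)) 3 with hn | hn
  · have h12 : av S (A 0) = 1 ∨ av S (A 0) = 2 := by omega
    rcases h12 with h1 | h1
    · -- one face: `A 1` is a parent of `y`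
      rw [h1] at g3 g4
      have h3 := (g4 0 (by omega)).1
      rw [g2, zero_add, g3] at h3
      have h4 : G.Adj (A 1) y := hT.adj h3.swap.swap'
      exact absurd ⟨h4, by have := hA0.2; omega⟩ (hno _ hA0)
    · rw [h1] at g3 g4
      obtain ⟨h3, h3S⟩ := g4 0 (by omega)
      obtain ⟨h4, h4S⟩ := g4 1 (by omega)
      rw [g2, zero_add] at h3
      rw [g2, zero_add] at h3S
      rw [show 1 + 1 = 2 by rfl, g3] at h4
      have e1 : G.Adj (A 1) (g 1) := hT.adj h3.swap.swap'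
      have e2 : G.Adj (A 0) (g 1) := hT.adj' h3
      have e3 : G.Adj (g 1) y := hT.adj h4.swap.swap'
      have l1 := lev_adj hc r e1.symm
      have l2 := lev_adj hc r e2
      have l3 := hA0.2
      have hlg : G.dist r (g 1) = G.dist r (A 0) := by
        by_contra hcon
        have h5 : G.dist r (g 1) = G.dist r (A 1) := by omega
        exact hno (g 1) ⟨e2.symm, by omega⟩ ⟨e3, by omega⟩
      have h6 := s2 ⟨g 1, h3, h3S, hlg⟩
      rw [h1]
      push_cast
      linarith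
  · have : (3 : ℤ) ≤ (av S (A 0) : ℤ) := by exact_mod_cast hn
    linarith

theorem stmt_LH (hD : Stmt_DESC) (hP : Stmt_POLY) (hS : Stmt_SIDE) (hF : Stmt_FAN) :
    Stmt_LH := by
  intro V G F hT r x y hxy hlev
  have hc := hT.conn
  -- with a common parent there is a face
  have caseA : ∀ w, Ch G r w x → Ch G r w y → T3 F x y w := by
    intro w hwx hwy
    obtain ⟨S, hsub, -, -, hbot, -, he1⟩ := hP hT r 1 1 (fun t => if t = 0 then x else w)
      (fun t => if t = 0 then y else w) (by simp) (by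
        intro t ht
        have : t = 0 := by omega
        subst this
        simpa using hwx) (by
        intro t ht
        have : t = 0 := by omega
        subst this
        simpa using hwy) (by intro t h1 h2; omega) (Or.inr ⟨rfl, by simpa using hxy, le_rfl⟩)
    obtain ⟨k1, k2, k3⟩ := he1 rfl
    simp only [Finset.Ico_self, Finset.sum_empty, one_ne_zero, if_false, if_true,
      Nat.sub_self] at k1 k2 k3 hbot
    have hwxne : w ≠ y := by
      intro h
      have := hwy.1.ne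
      exact this h
    obtain ⟨g, g1, g2, g3, g4⟩ := hF hT S x w y hsub hwx.1.symm hxy hwxne k1
    obtain ⟨g', g1', -, -, -⟩ := hF hT S y w x hsub hwy.1.symm hxy.symm hwx.1.ne k2
    obtain ⟨g'', g1'', -, -, -⟩ := hF hT S w x y hsub hwx.1 hwy.1 hxy.ne hbot
    have hav : av S x = 1 := by omega
    rw [hav] at g3 g4
    have h3 := (g4 0 (by omega)).1
    rw [g2, zero_add, g3] at h3
    exact h3.swap'
  by_cases hex : ∃ w, Ch G r w x ∧ Ch G r w y
  · obtain ⟨w, h1, h2⟩ := hex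
    exact ⟨w, h1, h2, caseA w h1 h2⟩
  exfalso
  have hno : ∀ w, Ch G r w x → ¬ Ch G r w y := fun w h1 h2 => hex ⟨w, h1, h2⟩
  obtain ⟨s, A, B, hA0, hB0, hAB, hne, hA, hB⟩ := hD hc r x y hlev
  have hs : 1 ≤ s := by
    by_contra hcon
    have : s = 0 := by omega
    subst this
    rw [hA0, hB0] at hAB
    exact hxy.ne hAB
  obtain ⟨S, hsub, hbA, hbB, hbot, -, he1⟩ := hP hT r s 1 A B hAB hA hB
    (fun t _ h2 => hne t h2) (Or.inr ⟨rfl, by rw [hA0, hB0]; exact hxy, hs⟩)
  obtain ⟨k1, k2, k3⟩ := he1 rfl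
  have hadj : G.Adj (A 0) (B 0) := by rw [hA0, hB0]; exact hxy
  have hl : G.dist r (A 0) = G.dist r (B 0) := by rw [hA0, hB0]; exact hlev
  have t1 := lh_top hS hF hT r (B 0) S s A hsub hs hA hbA hadj hl k1
    (by rw [hA0, hB0]; exact hno)
  have t2 := lh_top hS hF hT r (A 0) S s B hsub hs hB hbB hadj.symm hl.symm k2
    (by rw [hA0, hB0]; exact fun w h1 h2 => hno w h2 h1)
  have hA' := hA (s - 1) (by omega)
  have hB' := hB (s - 1) (by omega)
  rw [show s - 1 + 1 = s by omega] at hA' hB'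
  obtain ⟨g, g1, -, -, -⟩ := hF hT S (A s) (A (s - 1)) (B (s - 1)) hsub hA'.1
    (by rw [hAB]; exact hB'.1) (hne (s - 1) (by omega)) hbot
  have g1' : (1 : ℤ) ≤ (av S (A s) : ℤ) := by exact_mod_cast g1
  linarith

end

end Pool.TriLev.helper33
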