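import Pool.Agent.Work.MP_91103f_lv_helper33.CONC

namespace Pool.TriLev.helper33

open Pool.Agent.Work.MP_91103f_co

open Classical

section

variable {V : Type} {G : SimpleGraph V} {r : V}

theorem up_BRS (y : V) : ∀ (H : ℕ) (x : V), Up G r H x y →
    (∃ L, L ∈ BRS G r x y H) ∧ G.dist r y = G.dist r x + H := by
  intro H
  induction H with
  | zero =>
    intro x h
    cases h
    refine ⟨⟨[], ⟨?_, ?_, rfl⟩, rfl, ?_⟩, rfl⟩
    · exact List.isChain_singleton _
    · simp
    · intro p hp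
      simp at hp
  | succ H ih =>
    rintro x ⟨c, hc, h⟩
    obtain ⟨⟨L, ⟨h1, h2, h3⟩, h4, h5⟩, h6⟩ := ih c h
    have h7 := hc.2
    refine ⟨⟨c :: L, ⟨?_, ?_, ?_⟩, ?_, ?_⟩, by omega⟩
    · rw [List.isChain_cons_cons]
      exact ⟨hc.1, h1⟩
    · rw [List.nodup_cons]
      refine ⟨?_, h2⟩
      rw [List.mem_cons]
      rintro (h8 | h8)
      · exact hc.1.ne h8
      · have := (h5 x h8).1
        omega
    · rw [List.length_cons, h3]
    · rw [List.getLastD_cons, h4]
    · intro p hp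
      rw [List.mem_cons] at hp
      rcases hp with rfl | hp
      · omega
      · have := h5 p hp
        omega

end

theorem stmt_UPW : Stmt_UPW := by
  intro V G r hfin x y H h
  obtain ⟨⟨L, hL⟩, h2⟩ := up_BRS y H x h
  refine ⟨?_, h2⟩
  rw [Nat.one_le_iff_ne_zero, ← Nat.pos_iff_ne_zero, Set.ncard_pos (finite_BRS hfin _ _ _)]
  exact ⟨L, hL⟩

end Pool.TriLev.helper33
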